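import Pool.Agent.Lib_helper24.GRH.Odd

/-!
# A positive proportion of critical zeros for almost all Dirichlet L-functions: definitions

(MP_77948b_nt, Selberg's theorem in the conductor aspect.)  `L` is `(log q)/32`, the mollifier has
length `exp L`.
-/

namespace Pool.Agent.SQ

open Complex MeasureTheory Filter Topology
open Pool.Agent.GRH

/-- Coefficients of `(1-x)^{1/2}`. -/
noncomputable def hc : ℕ → ℝ
  | 0 => 1
  | (k + 1) => hc k * ((k : ℝ) - 1 / 2) / (k + 1)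

/-- The Dirichlet square root of the Möbius function. -/
noncomputable def al : ArithmeticFunction ℝ :=
  ⟨fun n => if n = 0 then 0 else n.factorization.prod fun _ k => hc k, by simp⟩

/-- Selberg's coefficients `β(n) = α(n) max(0, 1 - log n / L)`. -/
noncomputable def be (L : ℝ) : ArithmeticFunction ℝ :=
  ⟨fun n => al n * max 0 (1 - Real.log n / L), by simp⟩

/-- `λ = β * β`. -/
noncomputable def lam (L : ℝ) : ArithmeticFunction ℝ := be L * be L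

/-- `b = 1 * β * β`. -/
noncomputable def bb (L : ℝ) : ArithmeticFunction ℝ :=
  ((ArithmeticFunction.zeta : ArithmeticFunction ℕ) : ArithmeticFunction ℝ) * lam L

/-- All `n` with `β(n) ≠ 0` are `< NN L`. -/
noncomputable def NN (L : ℝ) : ℕ := ⌈Real.exp L⌉₊

/-- The mollifier on the critical line. -/
noncomputable def phi {q : ℕ} (L : ℝ) (χ : DirichletCharacter ℂ q) (t : ℝ) : ℂ :=
  ∑ n ∈ Finset.range (NN L), (be L n : ℂ) * χ n * (n : ℂ) ^ (-(1 / 2 + t * I) : ℂ)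

/-- Fourier density of `Λ(1/2+it) φ(t)^2`. -/
noncomputable def dD {q : ℕ} (κ : ℕ) (L : ℝ) (χ : DirichletCharacter ℂ q) (u : ℝ) : ℂ :=
  2 * (Real.exp (u / 2) : ℂ) * ∑' m : ℕ, χ m * ((bb L m * G κ (m * Real.exp u) : ℝ) : ℂ)

/-- Fourier density of `q^{it/2} Λ(1/2+it) |φ(t)|^2`. -/
noncomputable def dF {q : ℕ} (κ : ℕ) (L : ℝ) (χ : DirichletCharacter ℂ q) (v : ℝ) : ℂ :=
  ∑ k ∈ Finset.range (NN L), ∑ l ∈ Finset.range (NN L),
    ((be L k * be L l / √(k * l) : ℝ) : ℂ) * χ k * starRingEnd ℂ (χ l) *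
      dens κ 1 χ (v - Real.log q / 2 + Real.log k - Real.log l)

/-- `w_H(v) = ∫_0^H e^{ixv} dx`. -/
noncomputable def wH (H v : ℝ) : ℂ := ∫ x in (0 : ℝ)..H, cexp (x * v * I)

/-- Pairs `(k,l)` of integers coprime to `q`. -/
noncomputable def JJ (L : ℝ) (q : ℕ) : Finset (ℕ × ℕ) :=
  (Finset.range (NN L) ×ˢ Finset.range (NN L)).filter fun j => (j.1 * j.2).Coprime q

/-- `β(k) β(l) / l`. -/
noncomputable def cc (L : ℝ) (j : ℕ × ℕ) : ℝ := be L j.1 * be L j.2 / j.2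

/-- `gcd(k l', k' l)`. -/
def gg (j j' : ℕ × ℕ) : ℕ := Nat.gcd (j.1 * j'.2) (j'.1 * j.2)

/-- Selberg's quadratic form. -/
noncomputable def Sq (L : ℝ) (q : ℕ) (s : ℝ) : ℝ :=
  ∑ j ∈ JJ L q, ∑ j' ∈ JJ L q,
    cc L j * cc L j' * ((gg j j' : ℝ) / (j.1 * j'.1)) ^ (1 + s)

/-- `∑_{(m,q)=1} G(my)^2`. -/
noncomputable def WW (κ q : ℕ) (y : ℝ) : ℝ :=
  ∑' m : ℕ, if m.Coprime q then (G κ (m * y)) ^ 2 else 0

/-- The diagonal of the mean square of `dF`. -/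
noncomputable def Diag (κ q : ℕ) (L δ : ℝ) : ℝ :=
  4 * δ * ∑ j ∈ JJ L q, ∑ j' ∈ JJ L q,
    cc L j * cc L j' * WW κ q (δ * (j.1 * j'.1) / gg j j')

/-- `∑ β(k)β(l) k^{-1-s} l^{-1}` over pairs with `r ∣ kl`. -/
noncomputable def YY (L : ℝ) (q : ℕ) (s : ℝ) (r : ℕ) : ℝ :=
  ∑ j ∈ (JJ L q).filter (fun j => r ∣ j.1 * j.2),
    be L j.1 * be L j.2 * (j.1 : ℝ) ^ (-1 - s) * (j.2 : ℝ)⁻¹

/-- Jordan type function `∑_{d ∣ r} μ(r/d) d^{1+s}`. -/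
noncomputable def Jt (s : ℝ) (r : ℕ) : ℝ :=
  ∑ p ∈ r.divisorsAntidiagonal, (ArithmeticFunction.moebius p.1 : ℝ) * (p.2 : ℝ) ^ (1 + s)

/-- `∑_{n ≤ x, (n,R)=1} α(n) n^{-1-s} log(x/n)`. -/
noncomputable def AA (R : ℕ) (s x : ℝ) : ℝ :=
  ∑ n ∈ (Finset.range (⌊x⌋₊ + 1)).filter (fun n => n.Coprime R),
    al n * (n : ℝ) ^ (-1 - s) * Real.log (x / n)

/-- `c_κ(s) = ∫_0^∞ y^s G(y)^2 dy`. -/
noncomputable def cG (κ : ℕ) (s : ℝ) : ℝ := ∫ y in Set.Ioi (0 : ℝ), y ^ s * (G κ y) ^ 2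

end Pool.Agent.SQ
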